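import Pool.Agent.Run7.h146.Met.I1

set_option autoImplicit false

open MeasureTheory Filter Topology ENNReal

namespace Run7.h633.Met

open Run7.h146.Met

theorem measurable_nz (d : ℕ) : Measurable (fun x : V d => ‖x‖⁻¹ • x) :=
  measurable_norm.inv.smul measurable_id

theorem ball_pos (d : ℕ) : volume (Metric.ball (0 : V d) 1) ≠ 0 :=
  (Metric.measure_ball_pos volume 0 one_pos).ne'

theorem ball_fin (d : ℕ) : volume (Metric.ball (0 : V d) 1) ≠ ⊤ :=
  Metric.isBounded_ball.measure_lt_top.ne

theorem sig_prob (d : ℕ) : IsProbabilityMeasure (sig d) := by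
  have h1 : IsProbabilityMeasure ((volume (Metric.ball (0 : V d) 1))⁻¹ •
      volume.restrict (Metric.ball (0 : V d) 1)) := by
    refine ⟨?_⟩
    rw [Measure.smul_apply, Measure.restrict_apply_univ, smul_eq_mul]
    exact ENNReal.inv_mul_cancel (ball_pos d) (ball_fin d)
  unfold sig
  exact Measure.isProbabilityMeasure_map (measurable_nz d).aemeasurable

theorem nullV {d : ℕ} (hd : 0 < d) : NullSingletonClass (volume : Measure (V d)) := by
  have : Nonempty (Fin d) := ⟨⟨0, hd⟩⟩
  infer_instance

theorem sig_norm {d : ℕ} (hd : 0 < d) : sig d {v | ‖v‖ ≠ 1} = 0 := by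
  have := nullV hd
  have hm : MeasurableSet {v : V d | ‖v‖ ≠ 1} :=
    (measurableSet_eq_fun measurable_norm measurable_const).compl
  unfold sig
  rw [Measure.map_apply (measurable_nz d) hm, Measure.smul_apply, smul_eq_mul]
  have h1 : (volume.restrict (Metric.ball (0 : V d) 1)) ((fun x : V d => ‖x‖⁻¹ • x) ⁻¹' {v | ‖v‖ ≠ 1})
      = 0 := by
    refine measure_mono_null (t := {0}) ?_ ?_
    · intro x hx
      by_contra h0
      apply hx
      have hx0 : x ≠ 0 := h0
      show ‖‖x‖⁻¹ • x‖ = 1
      rw [norm_smul, norm_inv, norm_norm, inv_mul_cancel₀ (norm_ne_zero_iff.2 hx0)]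
    · exact le_antisymm ((Measure.restrict_apply_le _ _).trans (measure_singleton _).le) zero_le
  rw [h1, mul_zero]

theorem sig_map {d : ℕ} (O : V d ≃ₗᵢ[ℝ] V d) : (sig d).map O = sig d := by
  have hO : Measurable (O : V d → V d) := O.continuous.measurable
  unfold sig
  rw [Measure.map_map hO (measurable_nz d)]
  have h1 : (O : V d → V d) ∘ (fun x : V d => ‖x‖⁻¹ • x) = (fun x : V d => ‖x‖⁻¹ • x) ∘ O := by
    funext x
    show O (‖x‖⁻¹ • x) = ‖O x‖⁻¹ • O x
    rw [map_smul, O.norm_map]
  rw [h1, ← Measure.map_map (measurable_nz d) hO, Measure.map_smul]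
  have h2 : (volume.restrict (Metric.ball (0 : V d) 1)).map O
      = volume.restrict (Metric.ball (0 : V d) 1) := by
    have h3 := O.measurePreserving.restrict_preimage (s := Metric.ball (0 : V d) 1)
      measurableSet_ball
    have h4 : (O : V d → V d) ⁻¹' Metric.ball (0 : V d) 1 = Metric.ball (0 : V d) 1 := by
      ext x; simp
    rw [h4] at h3
    exact h3.map_eq
  rw [h2]

theorem mB_fin {d : ℕ} {B : Set (V d)} (hB : volume B ≠ ⊤) : IsFiniteMeasure (mB B) := by
  have := sig_prob d
  have : IsFiniteMeasure ((volume : Measure (V d)).restrict B) :=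
    ⟨by rw [Measure.restrict_apply_univ]; exact hB.lt_top⟩
  unfold mB
  infer_instance

theorem mB_null {d : ℕ} (hd : 0 < d) (B : Set (V d)) : NullSingletonClass (mB B) := by
  have := sig_prob d
  have := nullV hd
  refine ⟨fun z => ?_⟩
  unfold mB
  have h : ({z} : Set (X d)) = {z.1} ×ˢ {z.2} := by
    rw [Set.singleton_prod_singleton]
  rw [h, Measure.prod_prod, measure_singleton, zero_mul]

theorem mB_map {d : ℕ} (B : Set (V d)) (O : V d ≃ₗᵢ[ℝ] V d) (a : V d) :
    (mB B).map (fun z : X d => (a + O z.1, O z.2)) = mB ((fun x => a + O x) '' B) := by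
  have := sig_prob d
  have hO : Measurable (O : V d → V d) := O.continuous.measurable
  have h1 : MeasurePreserving (fun x : V d => a + O x) volume volume :=
    (measurePreserving_add_left volume a).comp O.measurePreserving
  have h2 : MeasurableEmbedding (fun x : V d => a + O x) :=
    (MeasurableEquiv.addLeft a).measurableEmbedding.comp
      O.toHomeomorph.toMeasurableEquiv.measurableEmbedding
  have h3 := (h1.restrict_image_emb h2 B).map_eq
  unfold mB
  rw [← h3]
  conv_rhs => rw [← sig_map O]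
  rw [Measure.map_prod_map _ _ h1.measurable hO]
  rfl

theorem fms_img {α : Type*} [MeasurableSpace α] (A : Set (Finset α)) :
    MeasurableSet A ↔ ∀ n : ℕ, MeasurableSet
      {y : Fin n → α | (@Finset.image _ _ (fun a b => Classical.propDecidable (a = b)) y Finset.univ) ∈ A} := by
  constructor
  · intro h n
    exact (MeasurableSpace.measurableSet_iInf.1 h) n
  · intro h
    exact MeasurableSpace.measurableSet_iInf.2 h

open Classical in
theorem poi_norm {d : ℕ} (ν : Measure (X d)) [IsFiniteMeasure ν] (N : Set (X d))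
    (hN : MeasurableSet N) (h0 : ν N = 0) : poi ν {F | ∃ z ∈ F, z ∈ N} = 0 := by
  have hpre : ∀ n : ℕ, {y : Fin n → X d | (@Finset.image _ _
      (fun a b => Classical.propDecidable (a = b)) y Finset.univ) ∈ {F : Finset (X d) | ∃ z ∈ F, z ∈ N}}
      = ⋃ i : Fin n, (Function.eval i) ⁻¹' N := by
    intro n
    ext y
    simp only [Set.mem_ofPred_eq, Finset.mem_image, Finset.mem_univ, true_and, Set.mem_iUnion,
      Set.mem_preimage, Function.eval]
    constructor
    · rintro ⟨z, ⟨i, rfl⟩, hz⟩
      exact ⟨i, hz⟩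
    · rintro ⟨i, hi⟩
      exact ⟨y i, ⟨i, rfl⟩, hi⟩
  have hA : MeasurableSet {F : Finset (X d) | ∃ z ∈ F, z ∈ N} := by
    rw [fms_img]
    intro n
    rw [hpre n]
    exact MeasurableSet.iUnion fun i => (measurable_pi_apply i) hN
  have hf : ∀ n : ℕ, Measurable (fun y : Fin n → X d => (@Finset.image _ _
      (fun a b => Classical.propDecidable (a = b)) y Finset.univ)) := by
    intro n B hB
    exact (fms_img B).1 hB n
  unfold poi
  rw [Measure.sum_apply _ hA]
  refine ENNReal.tsum_eq_zero.2 fun n => ?_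
  rw [Measure.smul_apply, Measure.map_apply (hf n) hA]
  have h1 : (Measure.pi fun _ : Fin n => ν) ((fun y : Fin n → X d => (@Finset.image _ _
      (fun a b => Classical.propDecidable (a = b)) y Finset.univ)) ⁻¹' {F | ∃ z ∈ F, z ∈ N}) = 0 := by
    have h2 : ((fun y : Fin n → X d => (@Finset.image _ _
      (fun a b => Classical.propDecidable (a = b)) y Finset.univ)) ⁻¹' {F | ∃ z ∈ F, z ∈ N})
      = ⋃ i : Fin n, (Function.eval i) ⁻¹' N := hpre n
    rw [h2]
    exact measure_iUnion_null fun i => Measure.pi_eval_preimage_null _ h0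
  rw [h1, smul_zero]

theorem t_MB (_ : S_PO1) : S_MB := by
  intro d hd
  refine ⟨sig_prob d, sig_norm hd, fun O => sig_map O, ?_⟩
  intro B _ hBf
  have hfin := mB_fin hBf
  refine ⟨hfin, mB_null hd B, fun O a => mB_map B O a, ?_⟩
  have hN : MeasurableSet {z : X d | ‖z.2‖ ≠ 1} :=
    (measurableSet_eq_fun measurable_snd.norm measurable_const).compl
  refine poi_norm (mB B) {z : X d | ‖z.2‖ ≠ 1} hN ?_
  have h := sig_prob d
  have h1 : {z : X d | ‖z.2‖ ≠ 1} = Set.univ ×ˢ {v : V d | ‖v‖ ≠ 1} := by
    ext z; simp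
  unfold mB
  rw [h1, Measure.prod_prod, sig_norm hd, mul_zero]

end Run7.h633.Met
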