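import Pool.Agent.Run7.h146.Met.I1
import Pool.Agent.Run7.h633.Met.MB

set_option autoImplicit false

open MeasureTheory Filter Topology ENNReal

namespace Run7.h633.Met

open Run7.h146.Met

attribute [local irreducible] Run7.h146.Met.ct

/-- a coordinate or the added point -/
def vl {d n : ℕ} (z : X d) (o : Option (Fin n)) (y : Fin n → X d) : X d :=
  match o with
  | none => z
  | some i => y i

theorem measurable_vl {d n : ℕ} (z : X d) (o : Option (Fin n)) :
    Measurable (fun y : Fin n → X d => vl z o y) := by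
  cases o with
  | none => exact measurable_const
  | some i => exact measurable_pi_apply i

theorem vl_update {d n : ℕ} (z : X d) (o : Option (Fin n)) (k : Fin n) (h : o ≠ some k)
    (y : Fin n → X d) (x : X d) : vl z o (Function.update y k x) = vl z o y := by
  cases o with
  | none => rfl
  | some i =>
    have : i ≠ k := fun h1 => h (by rw [h1])
    exact Function.update_of_ne this _ _

theorem measurable_ct {d : ℕ} {ε : ℝ} (hε : 0 < ε) (hCT : S_CT) :
    Measurable (fun p : X d × X d => ct ε p.1 p.2) := (hCT d ε hε).1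

theorem aux_s (s : ℝ≥0∞) : ∫⁻ t in Set.Ioi (0 : ℝ), (({s} : Set ℝ≥0∞).indicator
    (fun _ => (1 : ℝ≥0∞))) (ENNReal.ofReal t) = 0 := by
  have h4 : ∫⁻ t in Set.Ioi (0 : ℝ), (({s} : Set ℝ≥0∞).indicator (fun _ => (1 : ℝ≥0∞)))
    (ENNReal.ofReal t) ≤ ∫⁻ t in Set.Ioi (0 : ℝ), (({s.toReal} : Set ℝ).indicator
      (fun _ => (1 : ℝ≥0∞))) t := by
    apply setLIntegral_mono' measurableSet_Ioi
    intro t ht
    by_cases hts : ENNReal.ofReal t = s
    · have : t = s.toReal := by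
        rw [← hts, ENNReal.toReal_ofReal (le_of_lt ht)]
      rw [← this]
      simp [hts]
    · simp [hts]
  refine le_antisymm (h4.trans ?_) zero_le
  have h6 : ∫⁻ t in Set.Ioi (0 : ℝ), (({s.toReal} : Set ℝ).indicator (fun _ => (1 : ℝ≥0∞))) t
      = (volume.restrict (Set.Ioi (0 : ℝ))) {s.toReal} :=
    lintegral_indicator_one (measurableSet_singleton _)
  rw [h6]
  refine (Measure.restrict_apply_le _ _).trans ?_
  rw [Real.volume_singleton]

theorem meas_tie {d : ℕ} {ε : ℝ} (hε : 0 < ε) (hCT : S_CT) (z : X d) (s : ℝ≥0∞) :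
    MeasurableSet {y : X d | 0 < ct ε z y ∧ ct ε z y ≠ ⊤ ∧ ct ε z y = s} := by
  have hm0 : Measurable (fun y : X d => ((z, y) : X d × X d)) := measurable_prodMk_left
  have hm1' := (measurable_ct hε hCT).comp hm0
  have hm1 : Measurable (fun y : X d => ct ε z y) := hm1'
  have e1 : MeasurableSet {y : X d | 0 < ct ε z y} := measurableSet_lt measurable_const hm1
  have e2 : MeasurableSet {y : X d | ct ε z y ≠ ⊤} :=
    (measurableSet_eq_fun hm1 measurable_const).compl
  have e3 : MeasurableSet {y : X d | ct ε z y = s} := measurableSet_eq_fun hm1 measurable_const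
  exact e1.inter (e2.inter e3)

theorem mB_le (hMB : S_MB) {d : ℕ} (hd : 0 < d) (B : Set (V d)) :
    mB B ≤ (volume : Measure (V d)).prod (sig d) := by
  have hp := (hMB d hd).1
  unfold mB
  exact Measure.prod_mono Measure.restrict_le_self le_rfl

theorem tie0 (hCM : S_CM) {d : ℕ} {ε : ℝ} (hd : 0 < d) (hε : 0 < ε)
    (z : X d) (hz : ‖z.2‖ = 1) (s : ℝ≥0∞) (hCT : S_CT) :
    ((volume : Measure (V d)).prod (sig d)) {y | 0 < ct ε z y ∧ ct ε z y ≠ ⊤ ∧ ct ε z y = s} = 0 := by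
  obtain ⟨C, _, h1, _⟩ := hCM d ε hd hε
  have hφ : Measurable (({s} : Set ℝ≥0∞).indicator (fun _ => (1 : ℝ≥0∞))) :=
    measurable_const.indicator (measurableSet_singleton s)
  have h2 := h1 z hz _ hφ
  rw [aux_s s, mul_zero] at h2
  have hms := meas_tie hε hCT z s
  rw [← lintegral_indicator_one hms]
  refine le_antisymm (le_trans (lintegral_mono ?_) h2) zero_le
  intro y
  by_cases hy : y ∈ {y : X d | 0 < ct ε z y ∧ ct ε z y ≠ ⊤ ∧ ct ε z y = s}
  · rw [Set.indicator_of_mem hy]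
    obtain ⟨a1, a2, a3⟩ := hy
    have hc : 0 < ct ε z y ∧ ct ε z y ≠ ⊤ := ⟨a1, a2⟩
    beta_reduce
    rw [if_pos hc, a3]
    simp
  · rw [Set.indicator_of_notMem hy]
    exact zero_le

theorem tie1 (hCM : S_CM) (hMB : S_MB) {d : ℕ} {ε : ℝ} (hd : 0 < d) (hε : 0 < ε)
    (B : Set (V d)) (z : X d) (hz : ‖z.2‖ = 1) (s : ℝ≥0∞) (hCT : S_CT) :
    mB B {y | 0 < ct ε y z ∧ ct ε y z ≠ ⊤ ∧ ct ε y z = s} = 0 := by
  have hsym := (hCT d ε hε).2.1
  have hset : {y : X d | 0 < ct ε y z ∧ ct ε y z ≠ ⊤ ∧ ct ε y z = s}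
      = {y : X d | 0 < ct ε z y ∧ ct ε z y ≠ ⊤ ∧ ct ε z y = s} := by
    ext y
    simp only [Set.mem_ofPred_eq, hsym y z]
  rw [hset]
  exact le_antisymm ((mB_le hMB hd B _).trans (tie0 hCM hd hε z hz s hCT).le) zero_le

theorem measurable_ct2 {d n : ℕ} {ε : ℝ} (hε : 0 < ε) (hCT : S_CT) (z : X d)
    (p q : Option (Fin n)) :
    Measurable (fun y : Fin n → X d => ct ε (vl z p y) (vl z q y)) := by
  have h1 : Measurable (fun y : Fin n → X d => ((vl z p y, vl z q y) : X d × X d)) :=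
    (measurable_vl z p).prodMk (measurable_vl z q)
  have h2 := (measurable_ct hε hCT).comp h1
  exact h2

/-- the basic tie set -/
def TS {d n : ℕ} (ε : ℝ) (z : X d) (k : Fin n) (l p q : Option (Fin n)) : Set (Fin n → X d) :=
  {y | ‖(vl z l y).2‖ = 1 ∧ 0 < ct ε (vl z (some k) y) (vl z l y) ∧
    ct ε (vl z (some k) y) (vl z l y) ≠ ⊤ ∧
    ct ε (vl z (some k) y) (vl z l y) = ct ε (vl z p y) (vl z q y)}

theorem TS_meas {d n : ℕ} {ε : ℝ} (hε : 0 < ε) (hCT : S_CT) (z : X d) (k : Fin n)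
    (l p q : Option (Fin n)) : MeasurableSet (TS ε z k l p q) := by
  have h1 := measurable_ct2 (n := n) hε hCT z (some k) l
  have h2 := measurable_ct2 (n := n) hε hCT z p q
  have e0 : MeasurableSet {y : Fin n → X d | ‖(vl z l y).2‖ = 1} :=
    measurableSet_eq_fun (measurable_vl z l).snd.norm measurable_const
  have e1 : MeasurableSet {y : Fin n → X d | 0 < ct ε (vl z (some k) y) (vl z l y)} :=
    measurableSet_lt measurable_const h1
  have e2 : MeasurableSet {y : Fin n → X d | ct ε (vl z (some k) y) (vl z l y) ≠ ⊤} :=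
    (measurableSet_eq_fun h1 measurable_const).compl
  have e3 : MeasurableSet {y : Fin n → X d | ct ε (vl z (some k) y) (vl z l y)
      = ct ε (vl z p y) (vl z q y)} := measurableSet_eq_fun h1 h2
  exact e0.inter (e1.inter (e2.inter e3))

theorem TS_null (hCM : S_CM) (hMB : S_MB) (hCT : S_CT) {d n : ℕ} {ε : ℝ} (hd : 0 < d)
    (hε : 0 < ε) (B : Set (V d)) (hB : volume B ≠ ⊤) (z : X d) (k : Fin n)
    (l p q : Option (Fin n)) (hl : l ≠ some k) (hp : p ≠ some k) (hq : q ≠ some k) :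
    (Measure.pi fun _ : Fin n => mB B) (TS ε z k l p q) = 0 := by
  have hfin := mB_fin hB
  have hm := TS_meas hε hCT z k l p q
  rw [← lintegral_indicator_one hm,
    lintegral_eq_lmarginal_univ (μ := fun _ : Fin n => mB B) (fun _ => z),
    lmarginal_erase' _ (measurable_one.indicator hm) (Finset.mem_univ k)]
  have h0 : (fun x : Fin n → X d => ∫⁻ xk, (TS ε z k l p q).indicator 1 (Function.update x k xk)
      ∂(mB B)) = fun _ => 0 := by
    funext x
    have h1 : ∀ xk : X d, (TS ε z k l p q).indicator (1 : (Fin n → X d) → ℝ≥0∞)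
        (Function.update x k xk) = {y : X d | ‖(vl z l x).2‖ = 1 ∧ 0 < ct ε y (vl z l x) ∧
          ct ε y (vl z l x) ≠ ⊤ ∧ ct ε y (vl z l x) = ct ε (vl z p x) (vl z q x)}.indicator 1 xk := by
      intro xk
      have h2 : Function.update x k xk ∈ TS ε z k l p q ↔ xk ∈ {y : X d | ‖(vl z l x).2‖ = 1 ∧
          0 < ct ε y (vl z l x) ∧ ct ε y (vl z l x) ≠ ⊤ ∧
          ct ε y (vl z l x) = ct ε (vl z p x) (vl z q x)} := by
        have h3 : vl z (some k) (Function.update x k xk) = xk := by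
          show Function.update x k xk k = xk
          exact Function.update_self _ _ _
        unfold TS
        rw [Set.mem_ofPred_eq, Set.mem_ofPred_eq, vl_update z l k hl, vl_update z p k hp,
          vl_update z q k hq, h3]
      by_cases h4 : Function.update x k xk ∈ TS ε z k l p q
      · rw [Set.indicator_of_mem h4, Set.indicator_of_mem (h2.1 h4)]
        rfl
      · rw [Set.indicator_of_notMem h4, Set.indicator_of_notMem (fun h5 => h4 (h2.2 h5))]
    simp only [h1]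
    have hsm : {y : X d | ‖(vl z l x).2‖ = 1 ∧ 0 < ct ε y (vl z l x) ∧
          ct ε y (vl z l x) ≠ ⊤ ∧ ct ε y (vl z l x) = ct ε (vl z p x) (vl z q x)} ⊆
          {y : X d | ‖(vl z l x).2‖ = 1 ∧ y ∈ {y | 0 < ct ε y (vl z l x) ∧
          ct ε y (vl z l x) ≠ ⊤ ∧ ct ε y (vl z l x) = ct ε (vl z p x) (vl z q x)}} := by
      intro y hy
      exact hy
    refine le_antisymm ((lintegral_indicator_one_le _).trans ?_) zero_le
    by_cases h6 : ‖(vl z l x).2‖ = 1
    · refine (measure_mono (hsm.trans (fun y hy => hy.2))).trans ?_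
      exact (tie1 hCM hMB hd hε B (vl z l x) h6 _ hCT).le
    · have h7 : {y : X d | ‖(vl z l x).2‖ = 1 ∧ 0 < ct ε y (vl z l x) ∧
          ct ε y (vl z l x) ≠ ⊤ ∧ ct ε y (vl z l x) = ct ε (vl z p x) (vl z q x)} = ∅ := by
        ext y
        simp [h6]
      rw [h7, measure_empty]
  rw [h0]
  simp [lmarginal]

/-- the tie sets -/
def bad {d n : ℕ} (ε : ℝ) (z : X d) (a b c e : Option (Fin n)) : Set (Fin n → X d) :=
  {y | vl z a y ≠ vl z b y ∧ vl z c y ≠ vl z e y ∧ 0 < ct ε (vl z a y) (vl z b y) ∧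
    ct ε (vl z a y) (vl z b y) ≠ ⊤ ∧
    ct ε (vl z a y) (vl z b y) = ct ε (vl z c y) (vl z e y) ∧
    ¬ ((vl z a y = vl z c y ∧ vl z b y = vl z e y) ∨
      (vl z a y = vl z e y ∧ vl z b y = vl z c y))}

theorem bad_meas {d n : ℕ} {ε : ℝ} (hε : 0 < ε) (hCT : S_CT) (z : X d)
    (a b c e : Option (Fin n)) : MeasurableSet (bad ε z a b c e) := by
  have h1 := measurable_ct2 (n := n) hε hCT z a b
  have h2 := measurable_ct2 (n := n) hε hCT z c e
  have e1 : MeasurableSet {y : Fin n → X d | 0 < ct ε (vl z a y) (vl z b y)} :=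
    measurableSet_lt measurable_const h1
  have e2 : MeasurableSet {y : Fin n → X d | ct ε (vl z a y) (vl z b y) ≠ ⊤} :=
    (measurableSet_eq_fun h1 measurable_const).compl
  have e3 : MeasurableSet {y : Fin n → X d | ct ε (vl z a y) (vl z b y)
      = ct ε (vl z c y) (vl z e y)} := measurableSet_eq_fun h1 h2
  have ev : ∀ p q : Option (Fin n), MeasurableSet {y : Fin n → X d | vl z p y = vl z q y} :=
    fun p q => measurableSet_eq_fun (measurable_vl z p) (measurable_vl z q)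
  exact (ev a b).compl.inter ((ev c e).compl.inter (e1.inter (e2.inter (e3.inter
    ((((ev a c).inter (ev b e)).union ((ev a e).inter (ev b c))).compl)))))

theorem mB_norm {d : ℕ} (hd : 0 < d) (B : Set (V d)) : mB B {z : X d | ‖z.2‖ ≠ 1} = 0 := by
  have h := sig_prob d
  have h1 : {z : X d | ‖z.2‖ ≠ 1} = Set.univ ×ˢ {v : V d | ‖v‖ ≠ 1} := by
    ext z; simp
  unfold mB
  rw [h1, Measure.prod_prod, sig_norm hd, mul_zero]

theorem N_null {d n : ℕ} (hd : 0 < d) (B : Set (V d)) (hB : volume B ≠ ⊤) :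
    (Measure.pi fun _ : Fin n => mB B) {y | ∃ i, ‖(y i).2‖ ≠ 1} = 0 := by
  have hfin := mB_fin hB
  have h1 : {y : Fin n → X d | ∃ i, ‖(y i).2‖ ≠ 1}
      = ⋃ i : Fin n, (Function.eval i) ⁻¹' {z : X d | ‖z.2‖ ≠ 1} := by
    ext y
    simp
  rw [h1]
  exact measure_iUnion_null fun i => Measure.pi_eval_preimage_null _ (mB_norm hd B)

theorem vl_norm {d n : ℕ} (z : X d) (hz : ‖z.2‖ = 1) (y : Fin n → X d)
    (hy : y ∉ {y : Fin n → X d | ∃ i, ‖(y i).2‖ ≠ 1}) (o : Option (Fin n)) :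
    ‖(vl z o y).2‖ = 1 := by
  cases o with
  | none => exact hz
  | some i =>
    by_contra h
    exact hy ⟨i, h⟩

theorem comb {α : Type*} (a b c e : Option α) (h1 : a ≠ b) (h2 : c ≠ e)
    (h3 : ¬ ((a = c ∧ b = e) ∨ (a = e ∧ b = c))) :
    (∃ k, a = some k ∧ b ≠ some k ∧ c ≠ some k ∧ e ≠ some k) ∨
    (∃ k, b = some k ∧ a ≠ some k ∧ c ≠ some k ∧ e ≠ some k) ∨
    (∃ k, c = some k ∧ e ≠ some k ∧ a ≠ some k ∧ b ≠ some k) ∨
    (∃ k, e = some k ∧ c ≠ some k ∧ a ≠ some k ∧ b ≠ some k) := by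
  rcases a with _ | a <;> rcases b with _ | b <;> rcases c with _ | c <;> rcases e with _ | e <;>
    simp at * <;> grind

theorem bad_null (hCM : S_CM) (hMB : S_MB) (hCT : S_CT) {d n : ℕ} {ε : ℝ} (hd : 0 < d)
    (hε : 0 < ε) (B : Set (V d)) (hB : volume B ≠ ⊤) (z : X d) (hz : ‖z.2‖ = 1)
    (a b c e : Option (Fin n)) :
    (Measure.pi fun _ : Fin n => mB B) (bad ε z a b c e) = 0 := by
  have hsym := (hCT d ε hε).2.1
  by_cases h1 : a = b
  · have : bad ε z a b c e = ∅ := by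
      ext y; simp [bad, h1]
    rw [this, measure_empty]
  by_cases h2 : c = e
  · have : bad ε z a b c e = ∅ := by
      ext y; simp [bad, h2]
    rw [this, measure_empty]
  by_cases h3 : (a = c ∧ b = e) ∨ (a = e ∧ b = c)
  · have : bad ε z a b c e = ∅ := by
      ext y
      simp only [bad, Set.mem_ofPred_eq, Set.mem_empty_iff_false, iff_false]
      rintro ⟨_, _, _, _, _, h⟩
      apply h
      rcases h3 with ⟨h4, h5⟩ | ⟨h4, h5⟩
      · left; rw [h4, h5]; exact ⟨rfl, rfl⟩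
      · right; rw [h4, h5]; exact ⟨rfl, rfl⟩
    rw [this, measure_empty]
  rcases comb a b c e h1 h2 h3 with ⟨k, rfl, hb, hc, he⟩ | ⟨k, rfl, ha, hc, he⟩ |
    ⟨k, rfl, he, ha, hb⟩ | ⟨k, rfl, hc, ha, hb⟩
  · refine measure_mono_null (t := {y | ∃ i, ‖(y i).2‖ ≠ 1} ∪ TS ε z k b c e) ?_
      (measure_union_null (N_null hd B hB) (TS_null hCM hMB hCT hd hε B hB z k b c e hb hc he))
    rintro y ⟨_, _, h4, h5, h6, _⟩
    by_cases hy : y ∈ {y : Fin n → X d | ∃ i, ‖(y i).2‖ ≠ 1}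
    · exact Or.inl hy
    · exact Or.inr ⟨vl_norm z hz y hy b, h4, h5, h6⟩
  · refine measure_mono_null (t := {y | ∃ i, ‖(y i).2‖ ≠ 1} ∪ TS ε z k a c e) ?_
      (measure_union_null (N_null hd B hB) (TS_null hCM hMB hCT hd hε B hB z k a c e ha hc he))
    rintro y ⟨_, _, h4, h5, h6, _⟩
    by_cases hy : y ∈ {y : Fin n → X d | ∃ i, ‖(y i).2‖ ≠ 1}
    · exact Or.inl hy
    · rw [hsym (vl z a y)] at h4 h5 h6
      exact Or.inr ⟨vl_norm z hz y hy a, h4, h5, h6⟩
  · refine measure_mono_null (t := {y | ∃ i, ‖(y i).2‖ ≠ 1} ∪ TS ε z k e a b) ?_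
      (measure_union_null (N_null hd B hB) (TS_null hCM hMB hCT hd hε B hB z k e a b he ha hb))
    rintro y ⟨_, _, h4, h5, h6, _⟩
    by_cases hy : y ∈ {y : Fin n → X d | ∃ i, ‖(y i).2‖ ≠ 1}
    · exact Or.inl hy
    · rw [h6] at h4 h5
      exact Or.inr ⟨vl_norm z hz y hy e, h4, h5, h6.symm⟩
  · refine measure_mono_null (t := {y | ∃ i, ‖(y i).2‖ ≠ 1} ∪ TS ε z k c a b) ?_
      (measure_union_null (N_null hd B hB) (TS_null hCM hMB hCT hd hε B hB z k c a b hc ha hb))
    rintro y ⟨_, _, h4, h5, h6, _⟩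
    by_cases hy : y ∈ {y : Fin n → X d | ∃ i, ‖(y i).2‖ ≠ 1}
    · exact Or.inl hy
    · rw [h6] at h4 h5
      rw [hsym (vl z c y)] at h4 h5 h6
      exact Or.inr ⟨vl_norm z hz y hy c, h4, h5, h6.symm⟩

open Classical in
theorem mem_ins' {α : Type*} (z : α) (F : Finset α) (x : α) : x ∈ ins z F ↔ x = z ∨ x ∈ F := by
  unfold ins
  exact Finset.mem_insert

theorem mem_img' {α : Type*} {n : ℕ} (y : Fin n → α) (x : α) :
    x ∈ (@Finset.image _ _ (fun a b => Classical.propDecidable (a = b)) y Finset.univ) ↔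
      ∃ i, y i = x := by
  rw [@Finset.mem_image _ _ (fun a b => Classical.propDecidable (a = b))]
  constructor
  · rintro ⟨i, _, h⟩; exact ⟨i, h⟩
  · rintro ⟨i, h⟩; exact ⟨i, Finset.mem_univ _, h⟩

theorem mem_ins_img {d n : ℕ} (z : X d) (y : Fin n → X d) (x : X d) :
    x ∈ ins z (@Finset.image _ _ (fun a b => Classical.propDecidable (a = b)) y Finset.univ) ↔
      ∃ o : Option (Fin n), x = vl z o y := by
  rw [mem_ins', mem_img']
  constructor
  · rintro (h | ⟨i, h⟩)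
    · exact ⟨none, h⟩
    · exact ⟨some i, h.symm⟩
  · rintro ⟨o, h⟩
    cases o with
    | none => exact Or.inl h
    | some i => exact Or.inr ⟨i, h.symm⟩

theorem pre_eq {d n : ℕ} (ε : ℝ) (z : X d) :
    {y : Fin n → X d | (@Finset.image _ _ (fun a b => Classical.propDecidable (a = b)) y
      Finset.univ) ∈ {F : Finset (X d) | ¬ NT ε (ins z F)}}
      = ⋃ (a : Option (Fin n)), ⋃ (b : Option (Fin n)), ⋃ (c : Option (Fin n)),
        ⋃ (e : Option (Fin n)), bad ε z a b c e := by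
  ext y
  simp only [Set.mem_ofPred_eq, Set.mem_iUnion]
  unfold NT
  constructor
  · intro h
    push Not at h
    obtain ⟨a, ha, b, hb, c, hc, e, he, h1, h2, h3, h4, h5, h6⟩ := h
    obtain ⟨a', rfl⟩ := (mem_ins_img z y a).1 ha
    obtain ⟨b', rfl⟩ := (mem_ins_img z y b).1 hb
    obtain ⟨c', rfl⟩ := (mem_ins_img z y c).1 hc
    obtain ⟨e', rfl⟩ := (mem_ins_img z y e).1 he
    refine ⟨a', b', c', e', h1, h2, h3, h4, h5, ?_⟩
    rintro (⟨h7, h8⟩ | ⟨h7, h8⟩)
    · exact h6.1 h7 h8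
    · exact h6.2 h7 h8
  · rintro ⟨a, b, c, e, h1, h2, h3, h4, h5, h6⟩ h
    exact h6 (h _ ((mem_ins_img z y _).2 ⟨a, rfl⟩) _ ((mem_ins_img z y _).2 ⟨b, rfl⟩)
      _ ((mem_ins_img z y _).2 ⟨c, rfl⟩) _ ((mem_ins_img z y _).2 ⟨e, rfl⟩) h1 h2 h3 h4 h5)

theorem poi_null {d : ℕ} (ν : Measure (X d)) (A : Set (Finset (X d)))
    (hA : MeasurableSet A) (h0 : ∀ n : ℕ, (Measure.pi fun _ : Fin n => ν)
      {y : Fin n → X d | (@Finset.image _ _ (fun a b => Classical.propDecidable (a = b)) y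
      Finset.univ) ∈ A} = 0) : poi ν A = 0 := by
  have hf : ∀ n : ℕ, Measurable (fun y : Fin n → X d => (@Finset.image _ _
      (fun a b => Classical.propDecidable (a = b)) y Finset.univ)) := by
    intro n B hB
    exact (fms_img B).1 hB n
  unfold poi
  rw [Measure.sum_apply _ hA]
  refine ENNReal.tsum_eq_zero.2 fun n => ?_
  rw [Measure.smul_apply, Measure.map_apply (hf n) hA]
  have h1 : (Measure.pi fun _ : Fin n => ν) ((fun y : Fin n → X d => (@Finset.image _ _
      (fun a b => Classical.propDecidable (a = b)) y Finset.univ)) ⁻¹' A) = 0 := h0 n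
  rw [h1, smul_zero]

theorem t_NTP (_ : S_PO1) (_ : S_PO2) (_ : S_PO3) (_ : S_MK) (hMB : S_MB) (hCT : S_CT)
    (hCM : S_CM) : S_NTP := by
  intro d ε hd hε B _ hBf
  have key : ∀ z : X d, ‖z.2‖ = 1 → poi (mB B) {F | ¬ NT ε (ins z F)} = 0 := by
    intro z hz
    apply poi_null
    · rw [fms_img]
      intro n
      rw [pre_eq]
      exact MeasurableSet.iUnion fun a => MeasurableSet.iUnion fun b => MeasurableSet.iUnion fun c =>
        MeasurableSet.iUnion fun e => bad_meas hε hCT z a b c e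
    · intro n
      rw [pre_eq]
      exact measure_iUnion_null fun a => measure_iUnion_null fun b => measure_iUnion_null fun c =>
        measure_iUnion_null fun e => bad_null hCM hMB hCT hd hε B hBf z hz a b c e
  refine ⟨?_, key⟩
  have hu : ∃ v : V d, ‖v‖ = 1 := ⟨EuclideanSpace.single ⟨0, hd⟩ 1, by simp⟩
  obtain ⟨v, hv⟩ := hu
  refine measure_mono_null ?_ (key ((0 : V d), v) hv)
  intro F hF h
  apply hF
  intro a ha b hb c hc e he
  have hin : ∀ x ∈ F, x ∈ ins ((0 : V d), v) F := by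
    intro x hx
    exact (mem_ins' _ _ _).2 (Or.inr hx)
  exact h a (hin a ha) b (hin b hb) c (hin c hc) e (hin e he)

end Run7.h633.Met
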